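import Pool.Agent.Lib.MP_88b2ed_co.Main

/-!
# The worst angle for packings of congruent equilateral spherical triangles

`density θ` is the optimal density `δ(θ)`, `uncovered θ` the minimal uncovered area `U(θ)` and
`maxNumber θ` the number `N(θ)`. We answer the second question of the problem:
the infimum of `δ` over `(π/3, π)` is `1/2`, equivalently the supremum of `U` is `2π`; neither is
attained; and they are approached exactly as `θ` decreases to `2π/3`.
-/

namespace Pool.Agent.Results.MP_88b2ed_co.WorstAngle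

open Pool.Agent.Lib.MP_88b2ed_co
open Real Filter Topology

noncomputable section

theorem isGreatest_maxNumber {θ : ℝ} (h : θ ∈ Set.Ioo (π / 3) π) :
    IsGreatest {n | HasPacking θ n} (maxNumber θ) := by
  have hb := bddAbove_hasPacking h.1 h.2
  refine ⟨?_, fun n hn => le_csSup hb hn⟩
  apply Nat.sSup_mem _ hb
  refine ⟨2, ?_⟩
  show HasPacking θ 2
  rw [hasPacking_iff h.1 h.2]
  exact two_pack (neg_half_lt_sideCos h.1 h.2) (sideCos_lt_one h.1 h.2)

theorem density_of_gt {θ : ℝ} (h : θ ∈ Set.Ioo (2 * π / 3) π) :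
    density θ = (3 * θ - π) / (2 * π) := by
  unfold density
  rw [maxNumber_eq_two h.1 h.2]
  have := Real.pi_pos
  field_simp
  push_cast
  ring

theorem density_of_le {θ : ℝ} (h : θ ∈ Set.Ioc (π / 3) (2 * π / 3)) :
    507 / 1000 ≤ density θ := by
  have hpi := Real.pi_pos
  have h2 : θ < π := by linarith [h.2]
  have hτ2 : 1 - 2 * cos θ ≤ 2 := by
    have h3 : cos (2 * π / 3) = -1 / 2 := by
      have : 2 * π / 3 = π - π / 3 := by ring
      rw [this, Real.cos_pi_sub, Real.cos_pi_div_three]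
      norm_num
    have h4 : cos (2 * π / 3) ≤ cos θ :=
      Real.cos_le_cos_of_nonneg_of_le_pi (by linarith [h.1]) (by linarith) h.2
    linarith
  have hτ0 : 0 < 1 - 2 * cos θ := by
    have := cos_lt_half h.1 h2
    linarith
  obtain ⟨n, hn1, hn2⟩ := exists_dense hτ0 hτ2
  have h5 : n ≤ maxNumber θ := le_maxNumber h.1 h2 ((hasPacking_iff_pk h.1 h2 n).mpr hn1)
  have h6 := flow_le h.1.le h2.le
  have h7 : (n : ℝ) * flow (1 - 2 * cos θ) ≤ maxNumber θ * (3 * θ - π) := by
    have h8 : (n : ℝ) ≤ maxNumber θ := by exact_mod_cast h5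
    have h9 : 0 ≤ 3 * θ - π := by linarith [h.1]
    calc (n : ℝ) * flow (1 - 2 * cos θ) ≤ n * (3 * θ - π) :=
          mul_le_mul_of_nonneg_left h6 (Nat.cast_nonneg n)
      _ ≤ maxNumber θ * (3 * θ - π) := mul_le_mul_of_nonneg_right h8 h9
  unfold density
  rw [le_div_iff₀ (by positivity)]
  linarith

theorem half_lt_density {θ : ℝ} (h : θ ∈ Set.Ioo (π / 3) π) : 1 / 2 < density θ := by
  have hpi := Real.pi_pos
  by_cases h1 : θ ≤ 2 * π / 3
  · have := density_of_le ⟨h.1, h1⟩
    linarith
  · push Not at h1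
    rw [density_of_gt ⟨h1, h.2⟩, lt_div_iff₀ (by positivity)]
    linarith

theorem tendsto_density : Tendsto density (𝓝[>] (2 * π / 3)) (𝓝 (1 / 2)) := by
  have hpi := Real.pi_pos
  have h1 : Tendsto (fun θ : ℝ => (3 * θ - π) / (2 * π)) (𝓝[>] (2 * π / 3)) (𝓝 (1 / 2)) := by
    have h2 : ContinuousAt (fun θ : ℝ => (3 * θ - π) / (2 * π)) (2 * π / 3) := by fun_prop
    have h3 : (3 * (2 * π / 3) - π) / (2 * π) = 1 / 2 := by field_simp; ring
    have h4 := h2.tendsto
    rw [h3] at h4
    exact h4.mono_left nhdsWithin_le_nhds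
  refine h1.congr' ?_
  have h5 : Set.Ioo (2 * π / 3) π ∈ 𝓝[>] (2 * π / 3) := Ioo_mem_nhdsGT (by linarith)
  filter_upwards [h5] with θ hθ
  exact (density_of_gt hθ).symm

theorem uncovered_eq (θ : ℝ) : uncovered θ = 4 * π * (1 - density θ) := by
  unfold uncovered density
  have := Real.pi_pos
  field_simp

/-- **The worst angle.** For `θ ∈ (π/3, π)` the number `N(θ)` is a genuine maximum; `N(θ) = 2` for
`2π/3 < θ < π`; `δ(θ) ≥ 0.507` for `π/3 < θ ≤ 2π/3`; the infimum of the optimal density is `1/2`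
and the supremum of the minimal uncovered area is `2π`, neither is attained, and `δ(θ_k) → 1/2`
along a sequence in `(π/3, π)` exactly when `θ_k → 2π/3` from above. -/
theorem result :
    (∀ θ ∈ Set.Ioo (π / 3) π, IsGreatest {n | HasPacking θ n} (maxNumber θ)) ∧
    (∀ θ ∈ Set.Ioo (2 * π / 3) π, maxNumber θ = 2) ∧
    (∀ θ ∈ Set.Ioc (π / 3) (2 * π / 3), 507 / 1000 ≤ density θ) ∧
    IsGLB (density '' Set.Ioo (π / 3) π) (1 / 2) ∧
    IsLUB (uncovered '' Set.Ioo (π / 3) π) (2 * π) ∧
    (∀ θ ∈ Set.Ioo (π / 3) π, 1 / 2 < density θ ∧ uncovered θ < 2 * π) ∧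
    (∀ u : ℕ → ℝ, (∀ k, u k ∈ Set.Ioo (π / 3) π) →
      (Tendsto (fun k => density (u k)) atTop (𝓝 (1 / 2)) ↔
        Tendsto u atTop (𝓝[>] (2 * π / 3)))) := by
  have hpi := Real.pi_pos
  have hsub : ∀ θ ∈ Set.Ioo (2 * π / 3) π, θ ∈ Set.Ioo (π / 3) π := by
    intro θ h
    exact ⟨by linarith [h.1], h.2⟩
  have hIoo : Set.Ioo (2 * π / 3) π ∈ 𝓝[>] (2 * π / 3) := Ioo_mem_nhdsGT (by linarith)
  have hglb : IsGLB (density '' Set.Ioo (π / 3) π) (1 / 2) := by
    refine ⟨?_, ?_⟩
    · rintro _ ⟨θ, hθ, rfl⟩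
      exact (half_lt_density hθ).le
    · intro b hb
      apply ge_of_tendsto tendsto_density
      filter_upwards [hIoo] with θ hθ
      exact hb ⟨θ, hsub θ hθ, rfl⟩
  refine ⟨fun θ h => isGreatest_maxNumber h, fun θ h => maxNumber_eq_two h.1 h.2,
    fun θ h => density_of_le h, hglb, ?_, ?_, ?_⟩
  · refine ⟨?_, ?_⟩
    · rintro _ ⟨θ, hθ, rfl⟩
      rw [uncovered_eq]
      have := half_lt_density hθ
      nlinarith
    · intro b hb
      have h1 : 1 - b / (4 * π) ∈ lowerBounds (density '' Set.Ioo (π / 3) π) := by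
        rintro _ ⟨θ, hθ, rfl⟩
        have h2 := hb ⟨θ, hθ, rfl⟩
        rw [uncovered_eq] at h2
        have h3 : 1 - density θ ≤ b / (4 * π) := by
          rw [le_div_iff₀ (by positivity)]
          linarith
        linarith
      have h4 := hglb.2 h1
      have h5 : 1 / 2 ≤ b / (4 * π) := by linarith
      rw [le_div_iff₀ (by positivity)] at h5
      linarith
  · intro θ hθ
    refine ⟨half_lt_density hθ, ?_⟩
    rw [uncovered_eq]
    have := half_lt_density hθ
    nlinarith
  · intro u hu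
    constructor
    · intro h
      have h1 : ∀ᶠ k in atTop, density (u k) < 507 / 1000 :=
        h.eventually_lt_const (by norm_num)
      have h2 : ∀ᶠ k in atTop, u k ∈ Set.Ioo (2 * π / 3) π := by
        filter_upwards [h1] with k hk
        refine ⟨?_, (hu k).2⟩
        by_contra hcon
        push Not at hcon
        have := density_of_le ⟨(hu k).1, hcon⟩
        linarith
      rw [tendsto_nhdsWithin_iff]
      refine ⟨?_, ?_⟩
      · have h3 : Tendsto (fun k => (2 * π * density (u k) + π) / 3) atTop (𝓝 (2 * π / 3)) := by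
          have h4 : (2 * π * (1 / 2) + π) / 3 = 2 * π / 3 := by ring
          rw [← h4]
          exact ((h.const_mul (2 * π)).add_const π).div_const 3
        refine h3.congr' ?_
        filter_upwards [h2] with k hk
        rw [density_of_gt hk]
        field_simp
        ring
      · filter_upwards [h2] with k hk
        exact hk.1
    · intro h
      exact tendsto_density.comp h

end

end Pool.Agent.Results.MP_88b2ed_co.WorstAngle
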